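import Pool.Agent.helper76.BQ.BGood

set_option linter.all false
set_option autoImplicit false

/-!
# B10a, B10b (MP_3703a7_ag): majorants of the plane, products of theta one-forms
-/

open Matrix Complex

namespace Pool.Agent.helper76.BQ

variable {F : Type} [Field F] [NumberField F]

theorem B10a_diag {k : ℕ} (δ : Fin k → F) (v : F →+* ℝ) :
    IsMaj δ v 1 (diagonal (fun l => |v (δ l)|)) := by
  refine ⟨?_, ?_⟩
  · rw [Matrix.transpose_one, Matrix.one_mul, Matrix.mul_one]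
  · rw [Matrix.transpose_one, Matrix.one_mul, Matrix.mul_one]

/-- the hyperbolic rotation -/
theorem B10a_hyp (a b t : ℝ) (ha : 0 < |a|) (hb : 0 < |b|) (hab : a * |b| = - (b * |a|)) :
    let c := Real.cosh (t / 2)
    let s := Real.sinh (t / 2)
    let p := Real.sqrt |a|
    let q := Real.sqrt |b|
    (!![c, q / p * s; p / q * s, c] : Matrix (Fin 2) (Fin 2) ℝ)ᵀ * diagonal ![a, b] *
        !![c, q / p * s; p / q * s, c] = diagonal ![a, b] ∧
    !![|a| * Real.cosh t, Real.sqrt (|a| * |b|) * Real.sinh t;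
       Real.sqrt (|a| * |b|) * Real.sinh t, |b| * Real.cosh t] =
      (!![c, q / p * s; p / q * s, c] : Matrix (Fin 2) (Fin 2) ℝ)ᵀ * diagonal ![|a|, |b|] *
        !![c, q / p * s; p / q * s, c] := by
  intro c s p q
  have hp : 0 < p := Real.sqrt_pos.mpr ha
  have hq : 0 < q := Real.sqrt_pos.mpr hb
  have hp2 : |a| = p ^ 2 := (Real.sq_sqrt ha.le).symm
  have hq2 : |b| = q ^ 2 := (Real.sq_sqrt hb.le).symm
  have hcs : c ^ 2 - s ^ 2 = 1 := Real.cosh_sq_sub_sinh_sq _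
  have hC : Real.cosh t = c ^ 2 + s ^ 2 := by
    have := Real.cosh_two_mul (t / 2)
    rw [show 2 * (t / 2) = t by ring] at this
    exact this
  have hS : Real.sinh t = 2 * s * c := by
    have := Real.sinh_two_mul (t / 2)
    rw [show 2 * (t / 2) = t by ring] at this
    exact this
  have hpq : Real.sqrt (|a| * |b|) = p * q := Real.sqrt_mul ha.le _
  have hab' : a * q ^ 2 = - (b * p ^ 2) := by rw [← hp2, ← hq2]; exact hab
  have e1 : ∀ x y : ℝ, (!![c, q / p * s; p / q * s, c] : Matrix (Fin 2) (Fin 2) ℝ)ᵀ *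
      diagonal ![x, y] * !![c, q / p * s; p / q * s, c] =
      !![c * x * c + p / q * s * y * (p / q * s), c * x * (q / p * s) + p / q * s * y * c;
         q / p * s * x * c + c * y * (p / q * s), q / p * s * x * (q / p * s) + c * y * c] := by
    intro x y
    ext i j
    fin_cases i <;> fin_cases j <;>
      simp [Matrix.mul_apply, Fin.sum_univ_two, Matrix.diagonal, Matrix.transpose_apply]
  have hd : ∀ x y : ℝ, (diagonal ![x, y] : Matrix (Fin 2) (Fin 2) ℝ) = !![x, 0; 0, y] := by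
    intro x y
    ext i j
    fin_cases i <;> fin_cases j <;> simp [Matrix.diagonal]
  have ht1 : b * p ^ 2 = - (a * q ^ 2) := by linarith
  constructor
  · rw [e1, hd]
    have h00 : c * a * c + p / q * s * b * (p / q * s) = a := by
      have : p / q * s * b * (p / q * s) = (b * p ^ 2) * s ^ 2 / q ^ 2 := by
        field_simp
      rw [this, ht1]
      have h2 : -(a * q ^ 2) * s ^ 2 / q ^ 2 = - (a * s ^ 2) := by
        field_simp
      rw [h2]
      linear_combination a * hcs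
    have h01 : c * a * (q / p * s) + p / q * s * b * c = 0 := by
      have : c * a * (q / p * s) + p / q * s * b * c = c * s * (a * q ^ 2 + b * p ^ 2) / (p * q) := by
        field_simp
      rw [this, ht1]
      simp
    have h10 : q / p * s * a * c + c * b * (p / q * s) = 0 := by
      rw [← h01]; ring
    have h11 : q / p * s * a * (q / p * s) + c * b * c = b := by
      have : q / p * s * a * (q / p * s) = (a * q ^ 2) * s ^ 2 / p ^ 2 := by
        field_simp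
      rw [this, hab']
      have h2 : -(b * p ^ 2) * s ^ 2 / p ^ 2 = - (b * s ^ 2) := by
        field_simp
      rw [h2]
      linear_combination b * hcs
    rw [h00, h01, h10, h11]
  · rw [e1, hpq, hC, hS, hp2, hq2]
    have h00 : c * p ^ 2 * c + p / q * s * q ^ 2 * (p / q * s) = p ^ 2 * (c ^ 2 + s ^ 2) := by
      field_simp
    have h01 : c * p ^ 2 * (q / p * s) + p / q * s * q ^ 2 * c = p * q * (2 * s * c) := by
      field_simp
      ring
    have h10 : q / p * s * p ^ 2 * c + c * q ^ 2 * (p / q * s) = p * q * (2 * s * c) := by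
      rw [← h01]; ring
    have h11 : q / p * s * p ^ 2 * (q / p * s) + c * q ^ 2 * c = q ^ 2 * (c ^ 2 + s ^ 2) := by
      field_simp
      ring
    rw [h00, h01, h10, h11]

theorem B10a_one (δ : Fin 2 → F) (h0 : ∀ l, δ l ≠ 0) (t : (F →+* ℝ) → ℝ) (v : F →+* ℝ) :
    ∃ S, IsMaj δ v S (Mt δ t v) := by
  unfold Mt
  by_cases h : 0 < v (δ 0) * v (δ 1)
  · rw [if_pos h]
    exact ⟨1, B10a_diag δ v⟩
  · rw [if_neg h]
    have ha : v (δ 0) ≠ 0 := (map_ne_zero v).mpr (h0 0)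
    have hb : v (δ 1) ≠ 0 := (map_ne_zero v).mpr (h0 1)
    have hlt : v (δ 0) * v (δ 1) < 0 := lt_of_le_of_ne (not_lt.mp h) (mul_ne_zero ha hb)
    have hab : v (δ 0) * |v (δ 1)| = - (v (δ 1) * |v (δ 0)|) := by
      rcases mul_neg_iff.mp hlt with ⟨h1, h2⟩ | ⟨h1, h2⟩
      · rw [abs_of_neg h2, abs_of_pos h1]; ring
      · rw [abs_of_pos h2, abs_of_neg h1]; ring
    obtain ⟨e1, e2⟩ := B10a_hyp (v (δ 0)) (v (δ 1)) (t v) (abs_pos.mpr ha) (abs_pos.mpr hb) hab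
    refine ⟨!![Real.cosh (t v / 2), Real.sqrt |v (δ 1)| / Real.sqrt |v (δ 0)| *
        Real.sinh (t v / 2); Real.sqrt |v (δ 0)| / Real.sqrt |v (δ 1)| * Real.sinh (t v / 2),
        Real.cosh (t v / 2)], ?_, ?_⟩
    · have h3 : (fun l => v (δ l)) = ![v (δ 0), v (δ 1)] := by
        funext l; fin_cases l <;> rfl
      rw [h3]
      exact e1
    · have h3 : (fun l => |v (δ l)|) = ![|v (δ 0)|, |v (δ 1)|] := by
        funext l; fin_cases l <;> rfl
      rw [h3]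
      exact e2

/-- B10a -/
theorem Mt_maj {δ : Fin 2 → F} {v0 : F →+* ℝ} (h0 : ∀ l, δ l ≠ 0) (hp : ∀ l, 0 < v0 (δ l))
    (t : (F →+* ℝ) → ℝ) : ∃ S, MajAll δ v0 S (Mt δ t) := by
  choose S hS using B10a_one δ h0 t
  exact ⟨S, h0, hp, hS⟩

/-! ### the product formula -/

/-- linearity of `dss` -/
theorem B10a_dss_sum (D : ℝ) {g : ℕ} (c : Fin g → ℂ) (y : Fin g → Fin 3 → ℂ) (z : Fin 2 → ℂ)
    (α : Fin 2) : dss D (∑ i, c i • y i) z α = ∑ i, c i * dss D (y i) z α := by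
  unfold dss bil
  simp only [Finset.sum_apply, Pi.smul_apply, smul_eq_mul]
  rw [Finset.sum_congr rfl (fun i _ => show c i * ((y i α.castSucc * nn D z +
      z α * (y i 0 * lift z 0 + y i 1 * lift z 1 - ↑D * y i 2 * lift z 2)) /
        (nn D z * nn D z ^ (1 / 2 : ℂ))) = (c i * y i α.castSucc * nn D z +
      z α * (c i * y i 0 * lift z 0 + c i * y i 1 * lift z 1 - ↑D * (c i * y i 2) * lift z 2)) /
        (nn D z * nn D z ^ (1 / 2 : ℂ)) by ring)]
  rw [← Finset.sum_div, Finset.sum_add_distrib, ← Finset.sum_mul, ← Finset.mul_sum,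
    Finset.sum_sub_distrib, Finset.sum_add_distrib, ← Finset.sum_mul, ← Finset.sum_mul,
    ← Finset.sum_mul, ← Finset.mul_sum]

section B10a_of

/-- statement of T1b -/
def B10a_T1b : Prop := ∀ {g N : ℕ} (_ : 0 < N) {Z : Matrix (Fin g) (Fin g) ℂ} (_ : IsSiegel Z)
    (φ : Sch g N) (ξ : Fin g → ℂ) (k : ℕ),
    Summable (fun n : Fin g → ℤ => ‖φ (red N n)‖ * (1 + ∑ i, |(n i : ℝ)|) ^ k *
      ‖cexp (-(Real.pi : ℂ) * qf Z (pt N n) + 2 * (Real.pi : ℂ) * I * ∑ i, ξ i * pt N n i)‖)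

/-- statement of B3 for one vector -/
def B10a_B3 (F : Type) [Field F] [NumberField F] : Prop :=
  ∀ {κ d : F} {v0 : F →+* ℝ} (_ : Data κ d v0) {k : ℕ} (δ : Fin k → F) (_ : ∀ l, δ l ≠ 0),
    ∃ (g : ℕ) (bas dua : Fin g → Fin k → Fin 3 → F), LB d δ bas dua

/-- statement of B5a -/
def B10a_B5a (F : Type) [Field F] [NumberField F] : Prop :=
  ∀ {κ d : F} {v0 : F →+* ℝ} (_ : Data κ d v0) {k g : ℕ} {δ : Fin k → F}
    {bas dua : Fin g → Fin k → Fin 3 → F} (_ : LB d δ bas dua)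
    {S M : (F →+* ℝ) → Matrix (Fin k) (Fin k) ℝ} (_ : MajAll δ v0 S M) {z : Fin 2 → ℂ}
    (_ : z ∈ Ball (v0 d)), IsSiegel (Zm κ d v0 bas M z)

/-- statement of B5b -/
def B10a_B5b (F : Type) [Field F] [NumberField F] : Prop :=
  ∀ {κ d : F} {v0 : F →+* ℝ} {k g : ℕ} (bas : Fin g → Fin k → Fin 3 → F)
    (M : (F →+* ℝ) → Matrix (Fin k) (Fin k) ℝ) (z : Fin 2 → ℂ) (c : Fin g → ℚ),
    expo κ d v0 M (∑ i, (c i : F) • bas i) z = qf (Zm κ d v0 bas M z) (fun i => (c i : ℂ))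

/-- statement of B6a -/
def B10a_B6a (F : Type) [Field F] [NumberField F] : Prop :=
  ∀ {k g : ℕ} {d : F} {δ : Fin k → F} {bas dua : Fin g → Fin k → Fin 3 → F} (_ : LB d δ bas dua)
    {φ : (Fin k → Fin 3 → F) → ℂ} (_ : IsSchw φ),
    ∃ N : ℕ, 0 < N ∧ Even N ∧ ∃ ψ : Sch g N,
      (∀ n : Fin g → ℤ, φ (∑ i, ((n i : F) / (N : F)) • bas i) = ψ (red N n)) ∧
      ∀ x, φ x ≠ 0 → ∃ n : Fin g → ℤ, x = ∑ i, ((n i : F) / (N : F)) • bas i

/-- the terms of the theta one-form -/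
noncomputable def B10a_f (κ d : F) (v0 : F →+* ℝ) (M : (F →+* ℝ) → Matrix (Fin 1) (Fin 1) ℝ)
    (φ : (Fin 1 → Fin 3 → F) → ℂ) (z : Fin 2 → ℂ) (α : Fin 2) (x : Fin 1 → Fin 3 → F) : ℂ :=
  φ x * cexp (-(Real.pi : ℂ) * expo κ d v0 M x z) * dss (v0 d) (pl v0 (x 0)) z α

theorem B10a_summable_of (hT1b : B10a_T1b) (hB3 : B10a_B3 F) (hB5a : B10a_B5a F)
    (hB5b : B10a_B5b F) (hB6a : B10a_B6a F)
    {κ d : F} {v0 : F →+* ℝ} (hd : Data κ d v0) {δ : Fin 1 → F}
    {S M : (F →+* ℝ) → Matrix (Fin 1) (Fin 1) ℝ} (hM : MajAll δ v0 S M)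
    {φ : (Fin 1 → Fin 3 → F) → ℂ} (hφ : IsSchw φ)
    {z : Fin 2 → ℂ} (hz : z ∈ Ball (v0 d)) (α : Fin 2) :
    Summable (fun x => ‖B10a_f κ d v0 M φ z α x‖) := by
  obtain ⟨g, bas, dua, hL⟩ := hB3 hd δ hM.ne
  obtain ⟨N, hN, _, ψ, h1, h2⟩ := hB6a hL hφ
  have hS := hB5a hd hL hM hz
  have hsum := hT1b hN hS ψ 0 1
  have hNF : (N : F) ≠ 0 := Nat.cast_ne_zero.mpr hN.ne'
  have hNR : (N : ℝ) ≠ 0 := Nat.cast_ne_zero.mpr hN.ne'
  have hN1 : (1 : ℝ) ≤ (N : ℝ) := by exact_mod_cast hN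
  have hinj : Function.Injective
      (fun n : Fin g → ℤ => (∑ i, ((n i : F) / (N : F)) • bas i : Fin 1 → Fin 3 → F)) := by
    intro n n' h
    have h3 := hL.inj (fun i => ((n i : ℝ) - n' i) / N) (by
      intro v l a
      have h4 := congrArg v (congrFun (congrFun h l) a)
      simp only [Finset.sum_apply, Pi.smul_apply, smul_eq_mul, map_sum, map_mul, map_div₀,
        map_intCast, map_natCast] at h4
      rw [← sub_eq_zero, ← Finset.sum_sub_distrib] at h4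
      rw [← h4]
      exact Finset.sum_congr rfl fun i _ => by ring)
    funext i
    have h5 : ((n i : ℝ) - n' i) / N = 0 := congrFun h3 i
    rw [div_eq_zero_iff, or_iff_left hNR, sub_eq_zero] at h5
    exact_mod_cast h5
  refine (hinj.summable_iff ?_).mp ?_
  · intro x hx
    have h3 : φ x = 0 := by
      by_contra h
      obtain ⟨n, hn⟩ := h2 x h
      exact hx ⟨n, hn.symm⟩
    unfold B10a_f
    rw [h3, zero_mul, zero_mul, norm_zero]
  · refine Summable.of_nonneg_of_le (fun n => norm_nonneg _) (fun n => ?_)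
      (hsum.mul_left (∑ i, ‖dss (v0 d) (pl v0 (bas i 0)) z α‖))
    show ‖B10a_f κ d v0 M φ z α (∑ i, ((n i : F) / (N : F)) • bas i)‖ ≤ _
    unfold B10a_f
    rw [norm_mul, norm_mul, h1 n]
    have he : expo κ d v0 M (∑ i, ((n i : F) / (N : F)) • bas i) z =
        qf (Zm κ d v0 bas M z) (pt N n) := by
      have := hB5b (κ := κ) (d := d) (v0 := v0) bas M z (fun i => (n i : ℚ) / (N : ℚ))
      have h3 : (∑ i, (((n i : ℚ) / (N : ℚ) : ℚ) : F) • bas i) =
          ∑ i, ((n i : F) / (N : F)) • bas i := by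
        refine Finset.sum_congr rfl fun i _ => ?_
        push_cast
        rfl
      have h4 : (fun i => (((n i : ℚ) / (N : ℚ) : ℚ) : ℂ)) = pt N n := by
        funext i
        unfold pt
        push_cast
        rfl
      rw [← h3, ← h4]
      exact this
    rw [he]
    have hpl : pl v0 ((∑ i, ((n i : F) / (N : F)) • bas i : Fin 1 → Fin 3 → F) 0) =
        ∑ i, ((n i : ℂ) / (N : ℂ)) • pl v0 (bas i 0) := by
      funext a
      unfold pl
      simp only [Finset.sum_apply, Pi.smul_apply, smul_eq_mul, map_sum, map_mul, map_div₀,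
        map_intCast, map_natCast]
      push_cast
      rfl
    rw [hpl, B10a_dss_sum]
    have hb : ‖∑ i, ((n i : ℂ) / (N : ℂ)) * dss (v0 d) (pl v0 (bas i 0)) z α‖ ≤
        (∑ i, ‖dss (v0 d) (pl v0 (bas i 0)) z α‖) * (1 + ∑ i, |(n i : ℝ)|) := by
      rw [Finset.sum_mul]
      refine (norm_sum_le _ _).trans (Finset.sum_le_sum fun i _ => ?_)
      rw [norm_mul, mul_comm]
      refine mul_le_mul_of_nonneg_left ?_ (norm_nonneg _)
      rw [norm_div, Complex.norm_natCast, Complex.norm_intCast]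
      have h3 : |(n i : ℝ)| / N ≤ |(n i : ℝ)| := div_le_self (abs_nonneg _) hN1
      have h4 : |(n i : ℝ)| ≤ ∑ i, |(n i : ℝ)| :=
        Finset.single_le_sum (f := fun i => |(n i : ℝ)|) (fun j _ => abs_nonneg _)
          (Finset.mem_univ i)
      linarith
    have hc : ‖cexp (-(Real.pi : ℂ) * qf (Zm κ d v0 bas M z) (pt N n) +
        2 * (Real.pi : ℂ) * I * ∑ i, (0 : Fin g → ℂ) i * pt N n i)‖ =
        ‖cexp (-(Real.pi : ℂ) * qf (Zm κ d v0 bas M z) (pt N n))‖ := by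
      simp
    rw [hc, pow_one]
    calc ‖ψ (red N n)‖ * ‖cexp (-(Real.pi : ℂ) * qf (Zm κ d v0 bas M z) (pt N n))‖ *
        ‖∑ i, ((n i : ℂ) / (N : ℂ)) * dss (v0 d) (pl v0 (bas i 0)) z α‖ ≤
        ‖ψ (red N n)‖ * ‖cexp (-(Real.pi : ℂ) * qf (Zm κ d v0 bas M z) (pt N n))‖ *
        ((∑ i, ‖dss (v0 d) (pl v0 (bas i 0)) z α‖) * (1 + ∑ i, |(n i : ℝ)|)) :=
          mul_le_mul_of_nonneg_left hb (by positivity)
      _ = _ := by ring

end B10a_of

/-- pairs of vectors -/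
def B10a_e (X : Type) : ((Fin 1 → X) × (Fin 1 → X)) ≃ (Fin 2 → X) where
  toFun p := ![p.1 0, p.2 0]
  invFun x := (fun _ => x 0, fun _ => x 1)
  left_inv p := by
    refine Prod.ext ?_ ?_
    · funext i
      rw [Subsingleton.elim i 0]; rfl
    · funext i
      rw [Subsingleton.elim i 0]; rfl
  right_inv x := by
    funext i
    fin_cases i <;> rfl

theorem B10a_Mt_zero (δ : Fin 2 → F) (v : F →+* ℝ) :
    Mt δ 0 v = diagonal (fun l => |v (δ l)|) := by
  unfold Mt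
  by_cases h : 0 < v (δ 0) * v (δ 1)
  · rw [if_pos h]
  · rw [if_neg h]
    ext i j
    fin_cases i <;> fin_cases j <;> simp [Matrix.diagonal]

theorem B10a_expo (κ d : F) (v0 : F →+* ℝ) (δ : Fin 2 → F) (z : Fin 2 → ℂ)
    (a b : Fin 1 → Fin 3 → F) :
    expo κ d v0 (Mt δ 0) (B10a_e (Fin 3 → F) (a, b)) z =
      expo κ d v0 (fun v => diagonal fun _ => |v (δ 0)|) a z +
      expo κ d v0 (fun v => diagonal fun _ => |v (δ 1)|) b z := by
  unfold expo
  rw [← Finset.sum_add_distrib]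
  refine Finset.sum_congr rfl fun v _ => ?_
  rw [B10a_Mt_zero, ← mul_add]
  congr 1
  simp only [Fin.sum_univ_two, Fin.sum_univ_one, Matrix.diagonal_apply_eq]
  rw [Matrix.diagonal_apply_ne _ (by decide : (0 : Fin 2) ≠ 1),
    Matrix.diagonal_apply_ne _ (by decide : (1 : Fin 2) ≠ 0)]
  have h1 : B10a_e (Fin 3 → F) (a, b) 0 = a 0 := rfl
  have h2 : B10a_e (Fin 3 → F) (a, b) 1 = b 0 := rfl
  rw [h1, h2]
  push_cast
  ring

theorem B10a_A1 {X Y : Type} (f : X → ℂ) (g : Y → ℂ) (hf : Summable (fun x => ‖f x‖))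
    (hg : Summable (fun x => ‖g x‖)) :
    (∑' x, f x) * (∑' y, g y) = ∑' p : X × Y, f p.1 * g p.2 :=
  tsum_mul_tsum_of_summable_norm hf hg

theorem B10a_A2 {X Y : Type} (f : X → ℂ) (g : Y → ℂ) (hf : Summable (fun x => ‖f x‖))
    (hg : Summable (fun x => ‖g x‖)) : Summable (fun p : X × Y => f p.1 * g p.2) :=
  summable_mul_of_summable_norm hf hg

theorem B10a_A3 {X Y Z : Type} (e : X × Y ≃ Z) (f0 f1 : X → ℂ) (g0 g1 : Y → ℂ) (h : Z → ℂ)
    (hf : Summable (fun x => ‖f0 x‖)) (hg : Summable (fun x => ‖g0 x‖))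
    (hf1 : Summable (fun x => ‖f1 x‖)) (hg1 : Summable (fun x => ‖g1 x‖))
    (hh : ∀ a b, h (e (a, b)) = f0 a * g1 b - f1 a * g0 b) :
    ∑' z, h z = (∑' x, f0 x) * (∑' y, g1 y) - (∑' x, f1 x) * (∑' y, g0 y) := by
  rw [B10a_A1 f0 g1 hf hg1, B10a_A1 f1 g0 hf1 hg, ← e.tsum_eq]
  refine Eq.trans ?_ ((B10a_A2 f0 g1 hf hg1).tsum_sub (B10a_A2 f1 g0 hf1 hg))
  exact tsum_congr fun p => hh p.1 p.2

/-- B10b from summability -/
theorem B10a_prod_of {κ d : F} {v0 : F →+* ℝ} {δ : Fin 2 → F}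
    {φ0 φ1 : (Fin 1 → Fin 3 → F) → ℂ} {z : Fin 2 → ℂ}
    (hs0 : ∀ α, Summable (fun x =>
      ‖B10a_f κ d v0 (fun v => diagonal fun _ => |v (δ 0)|) φ0 z α x‖))
    (hs1 : ∀ α, Summable (fun x =>
      ‖B10a_f κ d v0 (fun v => diagonal fun _ => |v (δ 1)|) φ1 z α x‖)) :
    th2 κ d v0 (Mt δ 0) (fun x => φ0 (fun _ => x 0) * φ1 (fun _ => x 1)) z =
      th1 κ d v0 (fun v => diagonal fun _ => |v (δ 0)|) φ0 z 0 *
        th1 κ d v0 (fun v => diagonal fun _ => |v (δ 1)|) φ1 z 1 -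
      th1 κ d v0 (fun v => diagonal fun _ => |v (δ 0)|) φ0 z 1 *
        th1 κ d v0 (fun v => diagonal fun _ => |v (δ 1)|) φ1 z 0 := by
  refine B10a_A3 (B10a_e (Fin 3 → F))
    (B10a_f κ d v0 (fun v => diagonal fun _ => |v (δ 0)|) φ0 z 0)
    (B10a_f κ d v0 (fun v => diagonal fun _ => |v (δ 0)|) φ0 z 1)
    (B10a_f κ d v0 (fun v => diagonal fun _ => |v (δ 1)|) φ1 z 0)
    (B10a_f κ d v0 (fun v => diagonal fun _ => |v (δ 1)|) φ1 z 1) _
    (hs0 0) (hs1 0) (hs0 1) (hs1 1) ?_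
  intro a b
  rw [B10a_expo]
  have h1 : B10a_e (Fin 3 → F) (a, b) 0 = a 0 := rfl
  have h2 : B10a_e (Fin 3 → F) (a, b) 1 = b 0 := rfl
  have h3 : (fun _ : Fin 1 => a 0) = a := by
    funext i
    rw [Subsingleton.elim i 0]
  have h4 : (fun _ : Fin 1 => b 0) = b := by
    funext i
    rw [Subsingleton.elim i 0]
  have h5 : (fun x : Fin 2 → Fin 3 → F => φ0 (fun _ => x 0) * φ1 (fun _ => x 1))
      (B10a_e (Fin 3 → F) (a, b)) = φ0 a * φ1 b := by
    show φ0 (fun _ => a 0) * φ1 (fun _ => b 0) = _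
    rw [h3, h4]
  rw [h5, h1, h2, mul_add, Complex.exp_add]
  unfold B10a_f
  ring

/-- B10b, conditional form -/
theorem th2_product_of (hT1b : B10a_T1b) (hB3 : B10a_B3 F) (hB5a : B10a_B5a F)
    (hB5b : B10a_B5b F) (hB6a : B10a_B6a F)
    {κ d : F} {v0 : F →+* ℝ} (hd : Data κ d v0) {δ : Fin 2 → F} (h0 : ∀ l, δ l ≠ 0)
    (hp : ∀ l, 0 < v0 (δ l)) {φ0 φ1 : (Fin 1 → Fin 3 → F) → ℂ} (hφ0 : IsSchw φ0)
    (hφ1 : IsSchw φ1) {z : Fin 2 → ℂ} (hz : z ∈ Ball (v0 d)) :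
    th2 κ d v0 (Mt δ 0) (fun x => φ0 (fun _ => x 0) * φ1 (fun _ => x 1)) z =
      th1 κ d v0 (fun v => diagonal fun _ => |v (δ 0)|) φ0 z 0 *
        th1 κ d v0 (fun v => diagonal fun _ => |v (δ 1)|) φ1 z 1 -
      th1 κ d v0 (fun v => diagonal fun _ => |v (δ 0)|) φ0 z 1 *
        th1 κ d v0 (fun v => diagonal fun _ => |v (δ 1)|) φ1 z 0 := by
  refine B10a_prod_of (fun α => ?_) (fun α => ?_)
  · exact B10a_summable_of hT1b hB3 hB5a hB5b hB6a hd (δ := fun _ => δ 0) (S := fun _ => 1)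
      ⟨fun _ => h0 0, fun _ => hp 0, fun v => B10a_diag _ v⟩ hφ0 hz α
  · exact B10a_summable_of hT1b hB3 hB5a hB5b hB6a hd (δ := fun _ => δ 1) (S := fun _ => 1)
      ⟨fun _ => h0 1, fun _ => hp 1, fun v => B10a_diag _ v⟩ hφ1 hz α

end Pool.Agent.helper76.BQ
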